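import Mathlib
import Pool.Agent.W307.LK.Fin
import Pool.Agent.W262.SH.DefB

/-!
# `Ш` over multiquadratic fields of the elliptic curves with a cyclic 4-isogeny

The elliptic curves over `ℚ` with a rational cyclic subgroup of order 4 are the curves
`F4 a b : y² = x (x² + 2 (a + b) x + (a - b)²)`. Let `K = ℚ(√D_1, ..., √D_l)`. For 100 percent of
these curves `Ш(E/K)` contains `(ℤ/2)ⁿ` with `n = (3/2 - ε) log log max(|a|, |b|)`, but the average
of `4 ^ ((rank E(K) + r) / 2 ^ l)` is bounded if `Ш(E/K)` contains `(ℤ/2^(l+2))ʳ`, in particular for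
the 2-corank `r` of `Ш(E/K)`.
-/

namespace Pool.Agent.Results.MP_78d38b_nt.CyclicFourMultiquadratic

open Finset Filter

open Pool.Agent.W262.SH (KD ShaN Has rkN)

open scoped Classical

/-- the curve `y² = x (x² + 2 (a + b) x + (a - b)²)` over `ℚ` -/
def F4 (a b : ℤ) : WeierstrassCurve ℚ := ⟨0, 2 * ((a : ℚ) + b), 0, ((a : ℚ) - b) ^ 2, 0⟩

/-- the pairs `(a, b)` of different nonzero integers of absolute value at most `T` with squarefree
greatest common divisor -/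
noncomputable def Fam (T : ℕ) : Finset (ℤ × ℤ) :=
  (Icc (-(T : ℤ)) T ×ˢ Icc (-(T : ℤ)) T).filter (fun t =>
    t.1 ≠ 0 ∧ t.2 ≠ 0 ∧ t.1 ≠ t.2 ∧ Squarefree (Int.gcd t.1 t.2))

/-- **Theorem.** Let `K = ℚ(√D_1, ..., √D_l)`. (1) For every `ε > 0`, for 100 percent of the
`(a, b)` in the box `|a|, |b| ≤ T`, `T → ∞`, the Tate-Shafarevich group of `F4 a b` over `K`
contains `(ℤ/2)ⁿ` for all `n ≤ (3/2 - ε) log log T`. (2) The average of
`4 ^ ((rank over K + r) / 2 ^ l)` over the box is bounded for all `r` such that the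
Tate-Shafarevich groups over `K` contain `(ℤ/2^(l+2))ʳ`; the bound depends only on the number of
the primes that divide `D_1 ⋯ D_l`. -/
theorem result :
    (∀ (l : ℕ) (D : Fin l → ℤ), (∀ i, D i ≠ 0) → ∀ ε : ℝ, 0 < ε →
      Tendsto (fun T : ℕ => (((Fam T).filter (fun t =>
        ∀ n : ℕ, (n : ℝ) ≤ (3 / 2 - ε) * Real.log (Real.log T) →
          Has (ShaN (F4 t.1 t.2) (KD D)) 2 n)).card : ℝ) / (Fam T).card) atTop (nhds 1)) ∧
    ∃ C : ℝ, ∀ (l : ℕ) (D : Fin l → ℤ), (∀ i, D i ≠ 0) → ∀ (T : ℕ) (r : ℤ × ℤ → ℕ),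
      (∀ t ∈ Fam T, Has (ShaN (F4 t.1 t.2) (KD D)) (2 ^ (l + 2)) (r t)) →
      ∑ t ∈ Fam T, (4 : ℝ) ^ ((rkN (F4 t.1 t.2) (KD D) + r t : ℝ) / 2 ^ l) ≤
        C * 128 ^ (∏ i, D i).natAbs.primeFactors.card * (Fam T).card := by
  refine ⟨?_, ?_⟩
  · simp only [Pool.Agent.W262.SH.has_shaN]
    exact Pool.Agent.W307.LK.big
  · obtain ⟨C, hC⟩ := Pool.Agent.W307.LK.small
    refine ⟨C, fun l D hD T r hr => ?_⟩
    simp only [Pool.Agent.W262.SH.has_shaN] at hr
    have h := hC l D hD T r hr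
    refine le_trans (le_of_eq (sum_congr rfl fun t _ => ?_)) h
    push_cast
    rfl

end Pool.Agent.Results.MP_78d38b_nt.CyclicFourMultiquadratic
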