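import Mathlib
import Pool.Agent.W307.FK.Sha
import Pool.Agent.W262.SH.DefB
import Pool.Agent.W756.SH.Twi
import Pool.Agent.W736.SH.PHI
import Pool.Agent.W654.SHB.Rkk
import Pool.Agent.W305.SH.Abs
import Pool.Agent.W352.SH.Grp

/-!
# Ranks and Tate-Shafarevich groups over multiquadratic fields of the curves with full 2-torsion

Let `K = ℚ(√D_1, ..., √D_l)`. The average of `4 ^ ((rank E(K) + r_E) / 2 ^ l)` over all elliptic
curves `E` over `ℚ` with full rational 2-torsion, ordered by the discriminant, is at most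
`C * 128 ^ n`, where `Ш(E/K)` contains `(ℤ/2^(l+1))^(r_E)`, `n` is the number of the primes that
divide `D_1 ⋯ D_l` and `C` is an absolute constant.
-/

namespace Pool.Agent.Results.MP_78d38b_nt.MultiquadraticAllCurves

open Finset

open Pool.Agent.W262.SH (E KD ShaN Has rkN)

/-- The pairs `0 < a < b` of integers with squarefree gcd such that the discriminant
`16 (a b (b - a)) ^ 2` of the equation `y² = x (x - a) (x - b)` is at most `Z`. (The bounds
`a, b ≤ Z` follow. Every elliptic curve over `ℚ` with full rational 2-torsion is isomorphic to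
`y² = x (x - a) (x - b)` for exactly one pair `0 < a < b` with squarefree gcd.) -/
def Fam (Z : ℕ) : Finset (ℕ × ℕ) :=
  (Icc 1 Z ×ˢ Icc 1 Z).filter (fun t => t.1 < t.2 ∧ Squarefree (t.1.gcd t.2) ∧
    16 * (t.1 * t.2 * (t.2 - t.1)) ^ 2 ≤ Z)

/-- **Theorem.** The average of `4 ^ ((rank E(K) + r_E) / [K : ℚ])` over the elliptic curves `E`
over `ℚ` with full rational 2-torsion is bounded, `K = ℚ(√D_1, ..., √D_l)`. -/
theorem result : ∃ C : ℝ, ∀ (l : ℕ) (D : Fin l → ℤ), (∀ i, D i ≠ 0) →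
    ∀ (Z : ℕ) (r : ℕ × ℕ → ℕ),
    (∀ t ∈ Fam Z, Has (ShaN (E t.1 t.2) (KD D)) (2 ^ (l + 1)) (r t)) →
    ∑ t ∈ Fam Z, (4 : ℝ) ^ ((rkN (E t.1 t.2) (KD D) + r t : ℝ) / 2 ^ l) ≤
      C * 128 ^ (∏ i, D i).natAbs.primeFactors.card * (Fam Z).card := by
  classical
  have hT : Pool.Agent.W262.SH.TWI := Pool.Agent.W756.SH.Twi.twi
  have hP : Pool.Agent.W262.SH.PHI := Pool.Agent.W736.SH.PHI.phi Pool.Agent.W305.SH.absc hT
  have hR : Pool.Agent.W262.SH.RKK := Pool.Agent.W654.SHB.rkk hT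
  obtain ⟨C, -, hC⟩ := Pool.Agent.W307.FK.G.shaK_fam Pool.Agent.W307.FK.expf hP
    Pool.Agent.W352.SH.grp hR
  refine ⟨C, fun l D hD Z r hr => ?_⟩
  have h := hC l D hD Z r (fun t ht => (Pool.Agent.W262.SH.has_shaN _ _ _ _).1 (hr t ht))
  refine le_trans (le_of_eq (sum_congr rfl fun t _ => ?_)) h
  push_cast
  exact congrArg (fun n : ℕ => (4 : ℝ) ^ (((n : ℝ) + (r t : ℝ)) / 2 ^ l))
    (Pool.Agent.W262.SH.rkN_eq _ _ _ _)

end Pool.Agent.Results.MP_78d38b_nt.MultiquadraticAllCurves
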