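import Mathlib
import Pool.Agent.W262.SH.FamB
import Pool.Agent.W262.SH.DefB
import Pool.Agent.W262.SH.Kum
import Pool.Agent.W131.SH.Locl2
import Pool.Agent.W839.SH.Desc5
import Pool.Agent.W177.SH.Div
import Pool.Agent.W333.SH.Dup
import Pool.Agent.W782.SH.LocX
import Pool.Agent.W334.SH.Sh1
import Pool.Agent.W338.SH.Sh2
import Pool.Agent.W756.SH.Twi
import Pool.Agent.W736.SH.PHI
import Pool.Agent.W654.SHB.Rkk
import Pool.Agent.W305.SH.Abs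
import Pool.Agent.W352.SH.Grp

/-!
# Ranks and Tate-Shafarevich groups over the multiquadratic fields `ℚ(√D_1(t), ..., √D_l(t))`

Let `F k (t) = a k * ∏ (γ i * t + δ i) * ∏_{i < n} (α k i * t + β k i)` for `k = 0, 1, 2` with
`F 0 - F 1 = F 2`, and let `D i (t) = b i * ∏_{g j = i} (μ j * t + ν j)` for `i < l`, where all the
linear forms are pairwise non-proportional. For the elliptic curves
`E_t : y² = x (x - F 0 (t)) (x - F 1 (t))` over the number fields `K_t = ℚ(√D_1(t), ..., √D_l(t))`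
the average over `|t| ≤ X` of `2 ^ ((rank E_t(K_t) + r t) / 2 ^ l)` is bounded, where
`Ш(E_t/K_t)` contains `(ℤ/2^(l+1))^(r t)`.
-/

namespace Pool.Agent.Results.MP_78d38b_nt.MultiquadraticSha

open Finset

open Pool.Agent.W262.SH (E KD ShaN Has rkN)

/-- `F k (t) = a k * (∏ i, (γ i * t + δ i)) * ∏ i, (α k i * t + β k i)` -/
def F {n m : ℕ} (a : Fin 3 → ℤ) (γ δ : Fin m → ℤ) (α β : Fin 3 → Fin n → ℤ) (k : Fin 3)
    (t : ℤ) : ℤ :=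
  a k * (∏ i, (γ i * t + δ i)) * ∏ i, (α k i * t + β k i)

/-- `D i (t) = b i * ∏ (μ j * t + ν j)`, the product over the `j` with `g j = i` -/
def D {l s : ℕ} (b : Fin l → ℤ) (g : Fin s → Fin l) (μ ν : Fin s → ℤ) (t : ℤ) (i : Fin l) : ℤ :=
  b i * ∏ j ∈ univ.filter (fun j => g j = i), (μ j * t + ν j)

/-- The average of `2 ^ ((rank E_t(K_t) + r t) / 2 ^ l)` is bounded. -/
theorem result (n m l s : ℕ) (a : Fin 3 → ℤ) (γ δ : Fin m → ℤ) (α β : Fin 3 → Fin n → ℤ)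
    (b : Fin l → ℤ) (g : Fin s → Fin l) (μ ν : Fin s → ℤ)
    (ha : ∀ k, a k ≠ 0) (hα : ∀ k i, α k i ≠ 0) (hγ : ∀ i, γ i ≠ 0) (hb : ∀ i, b i ≠ 0)
    (hμ : ∀ j, μ j ≠ 0)
    (h1 : ∀ k i l j, (k, i) ≠ (l, j) → α k i * β l j ≠ α l j * β k i)
    (h2 : ∀ i j, i ≠ j → γ i * δ j ≠ γ j * δ i)
    (h3 : ∀ k i j, α k i * δ j ≠ γ j * β k i)
    (h4 : ∀ i j, i ≠ j → μ i * ν j ≠ μ j * ν i)
    (h5 : ∀ k i j, α k i * ν j ≠ μ j * β k i)
    (h6 : ∀ i j, γ i * ν j ≠ μ j * δ i)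
    (hF : ∀ t : ℤ, F a γ δ α β 0 t - F a γ δ α β 1 t = F a γ δ α β 2 t) :
    ∃ C : ℝ, ∀ r : ℤ → ℕ,
      (∀ t, (∀ k, F a γ δ α β k t ≠ 0) → (∀ i, D b g μ ν t i ≠ 0) →
        Has (ShaN (E (F a γ δ α β 0 t) (F a γ δ α β 1 t)) (KD (D b g μ ν t))) (2 ^ (l + 1))
          (r t)) →
      ∀ X : ℕ, 1 ≤ X →
      ∑ t ∈ (Icc (-(X : ℤ)) X).filter
        (fun t : ℤ => (∀ k, F a γ δ α β k t ≠ 0) ∧ ∀ i, D b g μ ν t i ≠ 0),
        (2 : ℝ) ^ ((rkN (E (F a γ δ α β 0 t) (F a γ δ α β 1 t)) (KD (D b g μ ν t)) + r t : ℝ) /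
          2 ^ l) ≤ C * X := by
  classical
  have hS1 : Pool.Agent.W262.SH.SH1 := Pool.Agent.W334.SH.sh1 Pool.Agent.W262.SH.kum
    (Pool.Agent.W782.SH.locx Pool.Agent.W333.SH.dup)
  have hS2 : Pool.Agent.W262.SH.SH2 := Pool.Agent.W338.SH.sh2 Pool.Agent.W177.SH.div
  have hD : Pool.Agent.W262.SH.DESC5 := Pool.Agent.W839.SH.desc5 Pool.Agent.W131.SH.good2
  have hL : Pool.Agent.W262.SH.LOCL2 := Pool.Agent.W131.SH.locl2
  have hT : Pool.Agent.W262.SH.TWI := Pool.Agent.W756.SH.Twi.twi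
  have hP : Pool.Agent.W262.SH.PHI := Pool.Agent.W736.SH.PHI.phi Pool.Agent.W305.SH.absc hT
  have hR : Pool.Agent.W262.SH.RKK := Pool.Agent.W654.SHB.rkk hT
  obtain ⟨C, hC⟩ := Pool.Agent.W262.SH.famB hD hL hS1 hS2 hP Pool.Agent.W352.SH.grp hR a γ δ α β b
    g μ ν ha hα hγ hb hμ h1 h2 h3 h4 h5 h6 hF
  refine ⟨C, fun r hr X hX => ?_⟩
  have h := hC r (fun t ht ht2 => (Pool.Agent.W262.SH.has_shaN _ _ _ _).1 (hr t ht ht2)) X hX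
  refine le_trans (le_of_eq (sum_congr rfl fun t _ => ?_)) h
  push_cast
  exact congrArg (fun n : ℕ => (2 : ℝ) ^ (((n : ℝ) + (r t : ℝ)) / 2 ^ l))
    (Pool.Agent.W262.SH.rkN_eq _ _ _ _)

end Pool.Agent.Results.MP_78d38b_nt.MultiquadraticSha
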